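import Pool.Agent.helper13.U4.SpecY

set_option autoImplicit false

/-!
# U4 (MP_62ffdf_lc), row u4:STC
-/

namespace Pool.Agent.U4

theorem STC_ex1 : ex1 false false false = false := rfl

theorem STC (h1 : STB_stmt) (h2 : SPR_stmt) : STC_stmt := by
  intro h y hh he S
  have hB := h1 h y hh he S
  obtain ⟨a1, a2, a3, a4⟩ := S.z2 2 rfl le_rfl (by omega)
  obtain ⟨b0, b1, b2⟩ := S.z4 2 rfl le_rfl (by omega)
  obtain ⟨c0, c1⟩ := S.z4'
  norm_num at a1 a2 a3 a4 b0 b1 b2
  have y20 : y 2 0 = false := by
    rw [S.rc 2 (by omega) 0 (by omega)]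
    norm_num [b0, b1, b2, STC_ex1]
  have y21 : y 2 1 = false := by
    rw [S.rc 2 (by omega) 1 (by omega)]
    norm_num [b1, b2, a2, STC_ex1]
  have y22 : y 2 2 = false := by
    rw [S.rc 2 (by omega) 2 (by omega)]
    norm_num [b2, a2, a3, STC_ex1]
  have y23 : y 2 3 = false := a1
  have y24 : y 2 4 = false := by
    have := hB 1 le_rfl (by omega)
    norm_num at this
    exact this
  have y12 : y 1 2 = false := by
    rw [S.rc 1 (by omega) 2 (by omega)]
    norm_num [y22, y23, y24, STC_ex1]
  have y00 : y 0 0 = false := by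
    rw [S.rc 0 (by omega) 0 (by omega)]
    norm_num [c0, c1, y12, STC_ex1]
  have hT2 : ∀ r ≤ 2 * 2, y 2 r = false := by
    intro r hr
    have : r = 0 ∨ r = 1 ∨ r = 2 ∨ r = 3 ∨ r = 4 := by omega
    rcases this with rfl | rfl | rfl | rfl | rfl
    · exact y20
    · exact y21
    · exact y22
    · exact y23
    · exact y24
  have key : ∀ t, 2 ≤ t → t ≤ h + 1 → ∀ r ≤ 2 * t, y t r = false := by
    intro t ht
    induction t, ht using Nat.le_induction with
    | base => exact fun _ => hT2
    | succ t ht ih =>
      intro hle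
      have ih' := ih (by omega)
      have hex : ∀ r ≤ 2 * t, ex1 (y (t + 1) r) (y (t + 1) (r + 1)) (y (t + 1) (r + 2)) = false := by
        intro r hr
        rw [← S.rc t (by omega) r (by omega)]
        exact ih' r hr
      rcases Nat.even_or_odd' (t + 1) with ⟨j, hj | hj⟩
      · have z2 := S.z2 (t + 1) (by omega) (by omega) (by omega)
        have e1 := z2.1
        have e2 := hB j (by omega) (by omega)
        have e3 := h2 (y (t + 1)) (2 * t) (2 * t + 1) hex le_rfl
          (by have : 2 * (t + 1) - 1 = 2 * t + 1 := by omega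
              rw [this] at e1
              exact e1)
          (by have h5 : 2 * j = t + 1 := hj.symm
              have h6 : 4 * j = 2 * t + 1 + 1 := by omega
              rw [h5, h6] at e2
              exact e2)
        intro r hr
        exact e3 r (by omega)
      · have z4 := S.z4 t (by omega) ht (by omega)
        have e3 := h2 (y (t + 1)) (2 * t) 0 hex (by omega) z4.1 z4.2.1
        intro r hr
        exact e3 r (by omega)
  intro t ht r hr
  have h3 : t = 0 ∨ t = 1 ∨ 2 ≤ t := by omega
  rcases h3 with rfl | rfl | h3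
  · have : r = 0 := by omega
    rw [this]
    exact y00
  · have : r = 0 ∨ r = 1 ∨ r = 2 := by omega
    rcases this with rfl | rfl | rfl
    · exact c0
    · exact c1
    · exact y12
  · exact key t h3 ht r hr

end Pool.Agent.U4
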